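import Pool.Agent.H90.CD.Params

/-!
# MP_018e62_nt: every number of components occurs

For every `m ≥ 1` there is a complex `c` such that the closure of `σ_c(ℕ)` has exactly `m`
connected components.  So no `D_m` is empty, and Q1 has a negative answer.
-/

set_option autoImplicit false

namespace Pool.Agent.Results.MP_018e62_nt.AllCountsOccur

/-- `σ_c(n) = ∑_{d ∣ n} d^c`. -/
noncomputable def sigmaC (c : ℂ) (n : ℕ) : ℂ := ∑ d ∈ n.divisors, (d : ℂ) ^ c

/-- `D_m`: the closure of `{σ_c(n) : n ≥ 1}` has exactly `m` connected components. -/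
def D (m : ℕ) : Set ℂ :=
  {c : ℂ | ENat.card (ConnectedComponents (closure (sigmaC c '' {n : ℕ | 1 ≤ n}))) = m}

theorem result :
    (∀ m : ℕ, 1 ≤ m → (D m).Nonempty) ∧ ¬ {m : ℕ | 1 ≤ m ∧ D m = ∅}.Infinite := by
  have h : ∀ m : ℕ, 1 ≤ m → (D m).Nonempty := by
    intro m hm
    obtain ⟨c, hc⟩ := H90.CD.main (m - 1)
    refine ⟨c, ?_⟩
    rw [Nat.sub_add_cancel hm] at hc
    exact hc
  refine ⟨h, fun hinf => ?_⟩
  obtain ⟨m, hm1, hm2⟩ := hinf.nonempty
  exact (h m hm1).ne_empty hm2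

end Pool.Agent.Results.MP_018e62_nt.AllCountsOccur
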